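import Pool.Agent.Lib.MP_1a41ac_nt.Main

/-!
For every finite field `F` with `q > 7` elements the nonzero elements can be listed as
`b 1, …, b (q - 1)`, with `b q = b 1`, so that all `b i * b (i + 1) + 1` are primitive.
-/

namespace Pool.Agent.Results.MP_1a41ac_nt.CircularPrimitive

theorem result (F : Type*) [Field F] [Fintype F] (hq : 7 < Fintype.card F) :
    ∃ b : ℕ → F, Set.BijOn b (Set.Icc 1 (Fintype.card F - 1)) {x : F | x ≠ 0} ∧
      b (Fintype.card F) = b 1 ∧
      ∀ i ∈ Set.Icc 1 (Fintype.card F - 1),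
        b i * b (i + 1) + 1 ≠ 0 ∧ orderOf (b i * b (i + 1) + 1) = Fintype.card F - 1 := by
  obtain ⟨b, h1, h2, h3⟩ := Pool.Agent.Lib.MP_1a41ac_nt.concl_all hq
  refine ⟨b, h1, h2, fun i hi => ⟨fun h => ?_, h3 i hi⟩⟩
  have h4 := pow_orderOf_eq_one (b i * b (i + 1) + 1)
  rw [h3 i hi, h, zero_pow (by omega)] at h4
  exact zero_ne_one h4

end Pool.Agent.Results.MP_1a41ac_nt.CircularPrimitive
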